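import Mathlib

/-!
Universality of random permutations (MP_e7e7e6_co): shared definitions.

`V : Fin n → Fin N` gives the strip (row interval) of every column.  Columns are cut into blocks
of `W` consecutive columns.  A tuple is `(X, y)`: a block number and `R` row numbers.
-/

set_option autoImplicit false
open Classical

namespace Pool.H15.Univ

/-- `π` contains every permutation of `Fin k` as a pattern. -/
def Universal (k n : ℕ) (π : Equiv.Perm (Fin n)) : Prop :=
  ∀ τ : Equiv.Perm (Fin k), ∃ f : Fin k ↪o Fin n,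
    ∀ i j : Fin k, (τ i < τ j ↔ π (f i) < π (f j))

/-- `V` contains every permutation of `Fin k`, using pairwise different strips. -/
def StripUniv (k n N : ℕ) (V : Fin n → Fin N) : Prop :=
  ∀ σ : Equiv.Perm (Fin k), ∃ c : Fin k → Fin n, ∃ b : Fin k → Fin N,
    StrictMono c ∧ StrictMono b ∧ ∀ i, V (c i) = b (σ i)

/-- the rows `y 0, y 1, ...` are met, in this order, inside column block number `X`. -/
def Emb {n N R : ℕ} (V : Fin n → Fin N) (W X : ℕ) (y : Fin R → ℕ) : Prop :=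
  ∃ c : Fin R → Fin n, StrictMono c ∧ ∀ l, (c l : ℕ) / W = X ∧ (V (c l) : ℕ) = y l

/-- range at level `j`. -/
def rho (r : ℕ → ℕ) (j : ℕ) : ℕ := ∏ i ∈ Finset.range j, r i

/-- shift a tuple by a column offset and `R` row offsets, distributed by the labelling `κ`. -/
def shift {R r : ℕ} (ρ : ℕ) (κ : Fin R → Fin R) (f : ℕ × (Fin R → ℕ))
    (v : Fin r × (Fin R → Fin r)) : ℕ × (Fin R → ℕ) :=
  (f.1 + ρ * v.1, fun l => f.2 l + ρ * v.2 (κ l))

/-- `j`-bad tuples. -/
def Bad {n N R : ℕ} (r m : ℕ → ℕ) (W : ℕ) (V : Fin n → Fin N) :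
    ℕ → (ℕ × (Fin R → ℕ)) → Prop
  | 0, f => ¬ Emb V W f.1 f.2
  | j + 1, f => ∃ κ : Fin R → Fin R,
      (r j) ^ (R + 1) < 3 * (R + 1) * m j *
        (Finset.univ.filter fun v : Fin (r j) × (Fin R → Fin (r j)) =>
          Bad r m W V j (shift (rho r j) κ f v)).card

/-- separation of two tuples at range `ρ`. -/
def Sep {R : ℕ} (ρ : ℕ) (f g : ℕ × (Fin R → ℕ)) : Prop :=
  (f.1 + ρ ≤ g.1 ∨ g.1 + ρ ≤ f.1) ∨ ∀ l l', (f.2 l + ρ ≤ g.2 l' ∨ g.2 l' + ρ ≤ f.2 l)

end Pool.H15.Univ
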