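import Mathlib
import Pool.Agent.H15.Univ.Defs

set_option autoImplicit false
open Classical Finset

namespace Pool.H15.Univ

theorem pow_le_two_desc (n M : ℕ) (hM : 2 * (n ^ 2 + 1) ≤ M) :
    (M : ℝ) ^ n ≤ 2 * (M.descFactorial n : ℝ) := by
  have hMpos : (0 : ℝ) < M := by
    have : 0 < M := by nlinarith
    exact_mod_cast this
  have hMn : n ≤ M + 1 := by nlinarith
  have h1 : (((M + 1 - n) ^ n : ℕ) : ℝ) ≤ (M.descFactorial n : ℝ) := by
    exact_mod_cast Nat.pow_sub_le_descFactorial M n
  have h2 : (((M + 1 - n : ℕ)) : ℝ) = M + 1 - n := by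
    rw [Nat.cast_sub hMn]; push_cast; ring
  have h3 : (1 : ℝ) / 2 ≤ ((M + 1 - n : ℝ) / M) ^ n := by
    have hb := one_add_mul_le_pow (a := ((1 - n : ℝ) / M)) (n := n) ?_
    · have h4 : (1 : ℝ) + (1 - n) / M = (M + 1 - n : ℝ) / M := by
        field_simp
        ring
      rw [h4] at hb
      refine le_trans ?_ hb
      have h5 : (2 : ℝ) * ((n : ℝ) ^ 2 + 1) ≤ M := by exact_mod_cast hM
      have h6 : (n : ℝ) * ((1 - n) / M) = -((n * (n - 1)) / M) := by ring
      rw [h6]
      have h7 : ((n : ℝ) * (n - 1)) / M ≤ 1 / 2 := by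
        rw [div_le_iff₀ hMpos]
        nlinarith [sq_nonneg ((n : ℝ)), (Nat.cast_nonneg n : (0 : ℝ) ≤ n)]
      linarith
    · rw [le_div_iff₀ hMpos]
      have h5 : (2 : ℝ) * ((n : ℝ) ^ 2 + 1) ≤ M := by exact_mod_cast hM
      nlinarith [sq_nonneg ((n : ℝ) - 1)]
  push_cast at h1
  rw [h2] at h1
  rw [div_pow, le_div_iff₀ (by positivity)] at h3
  linarith

theorem transfer (k n N : ℕ) (hN : 0 < N) (p : ℝ)
    (h : ((univ.filter fun V : Fin n → Fin N => ¬ StripUniv k n N V).card : ℝ) ≤ p * (N : ℝ) ^ n) :
    ((univ.filter fun π : Equiv.Perm (Fin n) => ¬ Universal k n π).card : ℝ) ≤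
      2 * p * (Nat.factorial n : ℝ) := by
  have hp : 0 ≤ p := by
    by_contra hneg
    have h1 : p * (N : ℝ) ^ n < 0 := mul_neg_of_neg_of_pos (not_le.mp hneg) (by positivity)
    have h2 : (0 : ℝ) ≤ ((univ.filter fun V : Fin n → Fin N => ¬ StripUniv k n N V).card : ℝ) :=
      Nat.cast_nonneg _
    linarith
  set w := 2 * (n ^ 2 + 1) with hw
  set M := N * w with hM
  have hwM : 2 * (n ^ 2 + 1) ≤ M := by
    rw [hM, ← hw]
    exact Nat.le_mul_of_pos_left _ hN
  let strip : (Fin n → Fin M) → (Fin n → Fin N) := fun U c => (finProdFinEquiv.symm (U c)).1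
  have hstrip_lt : ∀ (U : Fin n → Fin M) (c d : Fin n), strip U c < strip U d → U c < U d := by
    intro U c d hcd
    have e1 : U c = finProdFinEquiv ((finProdFinEquiv.symm (U c) : Fin N × Fin w)) :=
      (finProdFinEquiv.apply_symm_apply (U c)).symm
    have e2 : U d = finProdFinEquiv ((finProdFinEquiv.symm (U d) : Fin N × Fin w)) :=
      (finProdFinEquiv.apply_symm_apply (U d)).symm
    rw [e1, e2, Fin.lt_def, finProdFinEquiv_apply_val, finProdFinEquiv_apply_val]
    have h1 : ((finProdFinEquiv.symm (U c) : Fin N × Fin w).1 : ℕ) <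
      ((finProdFinEquiv.symm (U d) : Fin N × Fin w).1 : ℕ) := hcd
    have h2 := (finProdFinEquiv.symm (U c) : Fin N × Fin w).2.2
    have h3 : w * (((finProdFinEquiv.symm (U c) : Fin N × Fin w).1 : ℕ) + 1) ≤
      w * ((finProdFinEquiv.symm (U d) : Fin N × Fin w).1 : ℕ) := Nat.mul_le_mul_left _ h1
    rw [mul_add, mul_one] at h3
    omega
  set BP := (univ.filter fun π : Equiv.Perm (Fin n) => ¬ Universal k n π) with hBP
  set BV := (univ.filter fun V : Fin n → Fin N => ¬ StripUniv k n N V) with hBV
  -- count of `U` with bad strip function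
  have hcount : (univ.filter fun U : Fin n → Fin M => strip U ∈ BV).card = BV.card * w ^ n := by
    have e : (Fin n → Fin M) ≃ (Fin n → Fin N) × (Fin n → Fin w) :=
      ((Equiv.refl (Fin n)).arrowCongr finProdFinEquiv.symm).trans
        (Equiv.arrowProdEquivProdArrow _ _ _)
    have h1 : (univ.filter fun U : Fin n → Fin M => strip U ∈ BV).card =
        (BV ×ˢ (univ : Finset (Fin n → Fin w))).card := by
      apply Finset.card_bij (fun U _ => (strip U, fun c => (finProdFinEquiv.symm (U c)).2))
      · intro U hU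
        simpa using hU
      · intro U _ U' _ hUU
        funext c
        have h2 := congrFun (congrArg Prod.fst hUU) c
        have h3 := congrFun (congrArg Prod.snd hUU) c
        exact finProdFinEquiv.symm.injective (Prod.ext h2 h3)
      · rintro ⟨V, t⟩ hV
        refine ⟨fun c => finProdFinEquiv (V c, t c), ?_, ?_⟩
        · simp only [Finset.mem_filter, Finset.mem_univ, true_and]
          have : strip (fun c => finProdFinEquiv (V c, t c)) = V := by
            funext c
            simp only [strip, Equiv.symm_apply_apply]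
          rw [this]
          simpa using hV
        · simp only [strip, Equiv.symm_apply_apply]
    rw [h1, Finset.card_product]
    simp
  -- the injection
  have hinj : (BP ×ˢ (Finset.powersetCard n (univ : Finset (Fin M)))).card ≤
      (univ.filter fun U : Fin n → Fin M => strip U ∈ BV).card := by
    apply Finset.card_le_card_of_injOn
      (fun z : Equiv.Perm (Fin n) × Finset (Fin M) => fun c : Fin n =>
        if hz : z.2.card = n then z.2.orderEmbOfFin hz (z.1 c) else ⟨0, by
          have : 0 < M := by nlinarith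
          exact this⟩)
    · rintro ⟨π, S⟩ hz
      simp only [Finset.coe_product, Set.mem_prod, Finset.mem_coe, Finset.mem_powersetCard] at hz
      obtain ⟨hπ, -, hS⟩ := hz
      simp only [Finset.coe_filter, Finset.mem_univ, true_and, Set.mem_ofPred_eq, hS, dif_pos]
      rw [hBV, Finset.mem_filter]
      refine ⟨Finset.mem_univ _, ?_⟩
      rw [hBP, Finset.mem_filter] at hπ
      intro hSU
      apply hπ.2
      intro τ
      obtain ⟨c, b, hc, hb, hV⟩ := hSU τ
      refine ⟨OrderEmbedding.ofStrictMono c hc, ?_⟩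
      have key : ∀ i j : Fin k, τ i < τ j → π (c i) < π (c j) := by
        intro i j hij
        have h1 : b (τ i) < b (τ j) := hb hij
        rw [← hV i, ← hV j] at h1
        have h2 := hstrip_lt _ _ _ h1
        exact (S.orderEmbOfFin hS).lt_iff_lt.mp h2
      intro i j
      rw [OrderEmbedding.coe_ofStrictMono]
      constructor
      · exact key i j
      · intro hlt
        rcases lt_trichotomy (τ i) (τ j) with h1 | h1 | h1
        · exact h1
        · have : i = j := τ.injective h1
          subst this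
          exact absurd hlt (lt_irrefl _)
        · exact absurd (key j i h1) (not_lt.mpr hlt.le)
    · rintro ⟨π, S⟩ hz ⟨π', S'⟩ hz' heq
      simp only [Finset.coe_product, Set.mem_prod, Finset.mem_coe, Finset.mem_powersetCard] at hz hz'
      obtain ⟨-, -, hS⟩ := hz
      obtain ⟨-, -, hS'⟩ := hz'
      simp only [hS, hS', dif_pos] at heq
      have hSS : S = S' := by
        have h1 : ∀ (T : Finset (Fin M)) (hT : T.card = n) (ρ : Equiv.Perm (Fin n)),
            Set.range (fun c => T.orderEmbOfFin hT (ρ c)) = (T : Set (Fin M)) := by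
          intro T hT ρ
          have : (fun c => T.orderEmbOfFin hT (ρ c)) = (T.orderEmbOfFin hT) ∘ ρ := rfl
          rw [this, Set.range_comp, ρ.surjective.range_eq, Set.image_univ,
            Finset.range_orderEmbOfFin]
        have h2 := h1 S hS π
        have h3 := h1 S' hS' π'
        rw [heq, h3] at h2
        exact_mod_cast h2.symm
      subst hSS
      have hππ : π = π' := by
        apply Equiv.ext
        intro c
        exact (S.orderEmbOfFin hS).injective (congrFun heq c)
      rw [hππ]
  rw [hcount, Finset.card_product, Finset.card_powersetCard, Finset.card_univ,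
    Fintype.card_fin] at hinj
  have h1 : (BP.card : ℝ) * (M.choose n : ℝ) ≤ p * (M : ℝ) ^ n := by
    calc (BP.card : ℝ) * (M.choose n : ℝ) ≤ (BV.card : ℝ) * (w : ℝ) ^ n := by exact_mod_cast hinj
      _ ≤ p * (N : ℝ) ^ n * (w : ℝ) ^ n := mul_le_mul_of_nonneg_right h (by positivity)
      _ = p * (M : ℝ) ^ n := by rw [hM]; push_cast; rw [mul_pow]; ring
  have h2 := pow_le_two_desc n M hwM
  have h3 : (M.descFactorial n : ℝ) = (Nat.factorial n : ℝ) * (M.choose n : ℝ) := by
    exact_mod_cast Nat.descFactorial_eq_factorial_mul_choose M n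
  have hchoose : (0 : ℝ) < (M.choose n : ℝ) := by
    have : n ≤ M := by nlinarith
    exact_mod_cast Nat.choose_pos this
  have h4 : (BP.card : ℝ) * (M.choose n : ℝ) ≤
      (2 * p * (Nat.factorial n : ℝ)) * (M.choose n : ℝ) := by
    calc (BP.card : ℝ) * (M.choose n : ℝ) ≤ p * (M : ℝ) ^ n := h1
      _ ≤ p * (2 * (M.descFactorial n : ℝ)) := mul_le_mul_of_nonneg_left h2 hp
      _ = _ := by rw [h3]; ring
  exact le_of_mul_le_mul_right h4 hchoose

theorem stripUniv_mono {k k' n N : ℕ} (h : k ≤ k') (V : Fin n → Fin N)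
    (hV : StripUniv k' n N V) : StripUniv k n N V := by
  intro σ
  obtain ⟨c, b, hc, hb, hcb⟩ := hV (σ.viaFintypeEmbedding (Fin.castLEEmb h))
  refine ⟨c ∘ Fin.castLE h, b ∘ Fin.castLE h, hc.comp (Fin.strictMono_castLE h),
    hb.comp (Fin.strictMono_castLE h), fun i => ?_⟩
  simp only [Function.comp]
  rw [hcb]
  congr 1
  exact Equiv.Perm.viaFintypeEmbedding_apply_image σ (Fin.castLEEmb h) i

end Pool.H15.Univ
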