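import Mathlib
import Pool.Agent.H15.Univ.Defs
import Pool.Agent.H74.UnivM4

set_option autoImplicit false
open Classical Finset

namespace Pool.H15.Univ

theorem rho_pos (r : ℕ → ℕ) (hr : ∀ j, 0 < r j) (j : ℕ) : 0 < rho r j :=
  Finset.prod_pos fun i _ => hr i

theorem rho_succ (r : ℕ → ℕ) (j : ℕ) : rho r (j + 1) = rho r j * r j :=
  Finset.prod_range_succ _ _

theorem Sep.symm {R ρ : ℕ} {f g : ℕ × (Fin R → ℕ)} (h : Sep ρ f g) : Sep ρ g f := by
  rcases h with h | h
  · exact Or.inl h.symm
  · exact Or.inr fun l l' => (h l' l).symm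

theorem not_sep_self {R ρ : ℕ} (hR : 0 < R) (hρ : 0 < ρ) (f : ℕ × (Fin R → ℕ)) : ¬ Sep ρ f f := by
  rintro (h | h)
  · omega
  · have := h ⟨0, hR⟩ ⟨0, hR⟩
    omega

theorem mul_off_le {ρ r : ℕ} (t : Fin r) : ρ * (t : ℕ) + ρ ≤ ρ * r := by
  have h : (t : ℕ) + 1 ≤ r := t.2
  calc ρ * (t : ℕ) + ρ = ρ * ((t : ℕ) + 1) := by ring
    _ ≤ ρ * r := Nat.mul_le_mul_left _ h

theorem Sep.shift {R ρ r : ℕ} {f g : ℕ × (Fin R → ℕ)} (h : Sep (ρ * r) f g)
    (κ κ' : Fin R → Fin R) (v w : Fin r × (Fin R → Fin r)) :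
    Sep ρ (shift ρ κ f v) (shift ρ κ' g w) := by
  rcases h with h | h
  · left
    have h1 := mul_off_le (ρ := ρ) v.1
    have h2 := mul_off_le (ρ := ρ) w.1
    simp only [Pool.H15.Univ.shift]
    omega
  · right
    intro l l'
    have h1 := mul_off_le (ρ := ρ) (v.2 (κ l))
    have h2 := mul_off_le (ρ := ρ) (w.2 (κ' l'))
    have h3 := h l l'
    simp only [Pool.H15.Univ.shift]
    omega

theorem card_close (ρ r A B : ℕ) :
    (univ.filter fun τ : Fin r => ¬ (A + ρ ≤ B + ρ * (τ : ℕ) ∨ B + ρ * (τ : ℕ) + ρ ≤ A)).card ≤ 2 := by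
  set S := univ.filter fun τ : Fin r => ¬ (A + ρ ≤ B + ρ * (τ : ℕ) ∨ B + ρ * (τ : ℕ) + ρ ≤ A)
    with hS
  rcases S.eq_empty_or_nonempty with h | h
  · simp [h]
  · obtain ⟨τ0, h0, hmin⟩ := S.exists_min_image (fun τ => (τ : ℕ)) h
    have h0' : ¬ (A + ρ ≤ B + ρ * (τ0 : ℕ) ∨ B + ρ * (τ0 : ℕ) + ρ ≤ A) := by
      have := h0
      rw [hS, Finset.mem_filter] at this
      exact this.2
    have hc : S.card ≤ (Finset.Icc (τ0 : ℕ) (τ0 + 1)).card := by
      apply Finset.card_le_card_of_injOn (fun τ : Fin r => (τ : ℕ))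
      · intro τ hτ
        have hτ1 : ¬ (A + ρ ≤ B + ρ * (τ : ℕ) ∨ B + ρ * (τ : ℕ) + ρ ≤ A) := by
          have h' : τ ∈ S := hτ
          rw [hS, Finset.mem_filter] at h'
          exact h'.2
        have hm := hmin τ hτ
        have : ρ * (τ : ℕ) < ρ * ((τ0 : ℕ) + 2) := by
          have e : ρ * ((τ0 : ℕ) + 2) = ρ * (τ0 : ℕ) + ρ + ρ := by ring
          rw [e]; omega
        have h2 : (τ : ℕ) < τ0 + 2 := lt_of_mul_lt_mul_left this (Nat.zero_le _)
        simp only [Finset.coe_Icc, Set.mem_Icc]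
        omega
      · intro x _ y _ hxy
        exact Fin.ext hxy
    rw [Nat.card_Icc] at hc
    omega

theorem card_fun_le (R r : ℕ) (a : Fin R) (S : Finset (Fin r)) (hS : S.card ≤ 2) :
    (univ.filter fun g : Fin R → Fin r => g a ∈ S).card ≤ 2 * r ^ (R - 1) := by
  have h1 : (univ.filter fun g : Fin R → Fin r => g a ∈ S) =
      Fintype.piFinset fun i => if i = a then S else univ := by
    ext g
    simp only [Finset.mem_filter, Finset.mem_univ, true_and, Fintype.mem_piFinset]
    constructor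
    · intro h i
      by_cases hi : i = a
      · subst hi; simpa using h
      · simp [hi]
    · intro h
      simpa using h a
  rw [h1, Fintype.card_piFinset]
  have h2 : ∀ i : Fin R, (if i = a then S else (univ : Finset (Fin r))).card =
      if i = a then S.card else r := by
    intro i; split_ifs <;> simp
  rw [Finset.prod_congr rfl fun i _ => h2 i]
  rw [← Finset.mul_prod_erase univ _ (Finset.mem_univ a)]
  have h3 : ∏ x ∈ univ.erase a, (if x = a then S.card else r) = r ^ (R - 1) := by
    rw [Finset.prod_congr rfl (g := fun _ => r)]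
    · simp [Finset.card_erase_of_mem]
    · intro x hx
      simp [Finset.ne_of_mem_erase hx]
  rw [h3]
  simp only [if_true]
  exact Nat.mul_le_mul_right _ hS

theorem conf_card {R ρ r : ℕ} (κ : Fin R → Fin R)
    (f : ℕ × (Fin R → ℕ)) (v : Fin r × (Fin R → Fin r)) :
    (univ.filter fun w : Fin r × (Fin R → Fin r) =>
      ¬ Sep ρ (shift ρ κ f v) (shift ρ κ f w)).card ≤ R * (R * (2 * r ^ (R - 1))) := by
  have hsub : (univ.filter fun w : Fin r × (Fin R → Fin r) =>
      ¬ Sep ρ (shift ρ κ f v) (shift ρ κ f w)) ⊆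
      (univ : Finset (Fin R)).biUnion fun l => (univ : Finset (Fin R)).biUnion fun l' =>
        ({v.1} : Finset (Fin r)) ×ˢ (univ.filter fun g : Fin R → Fin r => g (κ l') ∈
          univ.filter fun τ : Fin r => ¬ (f.2 l + ρ * (v.2 (κ l) : ℕ) + ρ ≤ f.2 l' + ρ * (τ : ℕ) ∨
            f.2 l' + ρ * (τ : ℕ) + ρ ≤ f.2 l + ρ * (v.2 (κ l) : ℕ))) := by
    intro w hw
    rw [Finset.mem_filter] at hw
    have h := hw.2
    unfold Sep at h
    push Not at h
    obtain ⟨h1, l, l', h2⟩ := h
    simp only [shift] at h1 h2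
    simp only [Finset.mem_biUnion, Finset.mem_univ, true_and, Finset.mem_product,
      Finset.mem_singleton, Finset.mem_filter]
    refine ⟨l, l', ?_, ?_⟩
    · have a1 : ρ * (w.1 : ℕ) < ρ * ((v.1 : ℕ) + 1) := by
        have e : ρ * ((v.1 : ℕ) + 1) = ρ * (v.1 : ℕ) + ρ := by ring
        rw [e]; omega
      have a2 : ρ * (v.1 : ℕ) < ρ * ((w.1 : ℕ) + 1) := by
        have e : ρ * ((w.1 : ℕ) + 1) = ρ * (w.1 : ℕ) + ρ := by ring
        rw [e]; omega
      have b1 := lt_of_mul_lt_mul_left a1 (Nat.zero_le _)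
      have b2 := lt_of_mul_lt_mul_left a2 (Nat.zero_le _)
      apply Fin.ext
      omega
    · omega
  refine (Finset.card_le_card hsub).trans ?_
  refine (Finset.card_biUnion_le_card_mul _ _ (R * (2 * r ^ (R - 1))) ?_).trans ?_
  · intro l _
    refine (Finset.card_biUnion_le_card_mul _ _ (2 * r ^ (R - 1)) ?_).trans ?_
    · intro l' _
      rw [Finset.card_product, Finset.card_singleton, one_mul]
      exact card_fun_le R r (κ l') _ (card_close ρ r _ _)
    · simp
  · simp

/-- the numerical form of one use of the moment lemma -/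
theorem moment_num (R m a r : ℕ) (p : ℝ) (hr : 0 < r) (hR : 0 < R) :
    ((((r * r ^ R : ℕ) : ℝ) * p + a * ((R * (R * (2 * r ^ (R - 1))) : ℕ) : ℝ)) /
      ((r : ℝ) ^ (R + 1) / (3 * (R + 1) * m))) =
      3 * (R + 1) * m * (p + a * (2 * R ^ 2) / (r : ℝ) ^ 2) := by
  have hr' : (r : ℝ) ≠ 0 := by exact_mod_cast hr.ne'
  obtain ⟨s, rfl⟩ : ∃ s, R = s + 1 := ⟨R - 1, by omega⟩
  rw [Nat.add_sub_cancel]
  push_cast
  rcases Nat.eq_zero_or_pos m with hm | hm
  · subst hm; simp
  · have hm' : (m : ℝ) ≠ 0 := by exact_mod_cast hm.ne'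
    have h3 : (3 : ℝ) * ((s : ℝ) + 1 + 1) ≠ 0 := by positivity
    field_simp
    ring

section Step

variable {n N R : ℕ} (r m a : ℕ → ℕ) (W B : ℕ) (p : ℕ → ℝ)

/-- the bound at level `j` -/
def LevelBound (n N R : ℕ) (r m : ℕ → ℕ) (W B : ℕ) (p : ℕ → ℝ) (j : ℕ) : Prop :=
  ∀ F : Finset (ℕ × (Fin R → ℕ)),
    (∀ f ∈ F, f.1 + rho r j ≤ B ∧ ∀ l, f.2 l + rho r j ≤ N) →
    (∀ f ∈ F, ∀ g ∈ F, f ≠ g → Sep (rho r j) f g) →
    ((univ.filter fun V : Fin n → Fin N => ∀ f ∈ F, Bad r m W V j f).card : ℝ) ≤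
      (N : ℝ) ^ n * (p j) ^ F.card

theorem mixed (hR : 0 < R) (hr : ∀ j, 0 < r j) (hm : ∀ j, 0 < m j) (hp : ∀ j, 0 ≤ p j)
    (j : ℕ) (hj : LevelBound n N R r m W B p j)
    (hstep : (R : ℝ) ^ R *
      (3 * (R + 1) * m j * (p j + a j * (2 * R ^ 2) / (r j) ^ 2)) ^ (a j) ≤ p (j + 1))
    (G : Finset (ℕ × (Fin R → ℕ))) :
    ∀ A : Finset (ℕ × (Fin R → ℕ)),
    (∀ f ∈ A, f.1 + rho r j ≤ B ∧ ∀ l, f.2 l + rho r j ≤ N) →
    (∀ f ∈ A, ∀ g ∈ A, f ≠ g → Sep (rho r j) f g) →
    (∀ f ∈ G, f.1 + rho r (j + 1) ≤ B ∧ ∀ l, f.2 l + rho r (j + 1) ≤ N) →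
    (∀ f ∈ G, ∀ g ∈ G, f ≠ g → Sep (rho r (j + 1)) f g) →
    (∀ f ∈ A, ∀ g ∈ G, ∀ (κ : Fin R → Fin R) (v : Fin (r j) × (Fin R → Fin (r j))),
      Sep (rho r j) f (shift (rho r j) κ g v)) →
    ((univ.filter fun V : Fin n → Fin N =>
      (∀ f ∈ A, Bad r m W V j f) ∧ ∀ f ∈ G, Bad r m W V (j + 1) f).card : ℝ) ≤
      (N : ℝ) ^ n * (p j) ^ A.card * (p (j + 1)) ^ G.card := by
  induction G using Finset.induction_on with
  | empty =>
    intro A hA1 hA2 _ _ _
    have := hj A hA1 hA2
    simpa using this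
  | insert b G hb ih =>
    intro A hA1 hA2 hG1 hG2 hAG
    have hρ := rho_pos r hr j
    have hρs := rho_succ r j
    -- the event
    let E0 : (Fin n → Fin N) → Prop := fun V =>
      (∀ f ∈ A, Bad r m W V j f) ∧ ∀ f ∈ G, Bad r m W V (j + 1) f
    let bad : (Fin R → Fin R) → (Fin (r j) × (Fin R → Fin (r j))) → (Fin n → Fin N) → Prop :=
      fun κ v V => Bad r m W V j (shift (rho r j) κ b v)
    let θ : ℝ := ((r j : ℕ) : ℝ) ^ (R + 1) / (3 * (R + 1) * m j)
    have hr0 : (0 : ℝ) < r j := by exact_mod_cast hr j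
    have hm0 : (0 : ℝ) < m j := by exact_mod_cast hm j
    have hθ : 0 < θ := by positivity
    have hsub : (univ.filter fun V : Fin n → Fin N =>
        (∀ f ∈ A, Bad r m W V j f) ∧ ∀ f ∈ insert b G, Bad r m W V (j + 1) f) ⊆
        (univ : Finset (Fin R → Fin R)).biUnion fun κ =>
          univ.filter fun V => E0 V ∧ θ ≤ ((univ.filter fun v => bad κ v V).card : ℝ) := by
      intro V hV
      rw [Finset.mem_filter] at hV
      obtain ⟨-, h1, h2⟩ := hV
      obtain ⟨κ, hκ⟩ := h2 b (Finset.mem_insert_self _ _)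
      simp only [Finset.mem_biUnion, Finset.mem_univ, true_and, Finset.mem_filter]
      refine ⟨κ, ⟨h1, fun f hf => h2 f (Finset.mem_insert_of_mem hf)⟩, ?_⟩
      have h3 : ((r j : ℕ) : ℝ) ^ (R + 1) < 3 * (R + 1) * m j *
          ((univ.filter fun v => bad κ v V).card : ℝ) := by
        exact_mod_cast hκ
      rw [div_le_iff₀ (by positivity)]
      linarith
    have hone : ∀ κ : Fin R → Fin R,
        ((univ.filter fun V => E0 V ∧
          θ ≤ ((univ.filter fun v => bad κ v V).card : ℝ)).card : ℝ) ≤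
        ((N : ℝ) ^ n * (p j) ^ A.card * (p (j + 1)) ^ G.card) *
          (3 * (R + 1) * m j * (p j + a j * (2 * R ^ 2) / (r j) ^ 2)) ^ (a j) := by
      intro κ
      have hmom := moment (bad κ) E0
        (fun v w => ¬ Sep (rho r j) (shift (rho r j) κ b v) (shift (rho r j) κ b w))
        (fun v => not_sep_self hR hρ _) (fun v w h h' => h h'.symm)
        (R * (R * (2 * (r j) ^ (R - 1)))) (fun v => by
          have h := conf_card (ρ := rho r j) κ b v
          refine le_trans (le_of_eq (congrArg Finset.card ?_)) h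
          ext w; simp only [Finset.mem_filter, Finset.mem_univ, true_and])
        ((N : ℝ) ^ n * (p j) ^ A.card * (p (j + 1)) ^ G.card) (p j)
        (by have := hp j; have := hp (j + 1); positivity) (hp j) ?_ (a j) θ hθ
      · have hcard : (Fintype.card (Fin (r j) × (Fin R → Fin (r j))) : ℝ) =
            ((r j * (r j) ^ R : ℕ) : ℝ) := by
          simp
        rw [hcard, moment_num R (m j) (a j) (r j) (p j) (hr j) hR] at hmom
        refine le_trans (le_of_eq ?_) hmom
        congr 2
        ext V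
        simp only [Finset.mem_filter, Finset.mem_univ, true_and]
      · intro T hT
        have hinj : Set.InjOn (fun v : Fin (r j) × (Fin R → Fin (r j)) =>
            shift (rho r j) κ b v) (T : Set (Fin (r j) × (Fin R → Fin (r j)))) := by
          intro v hv w hw hvw
          by_contra hne
          have h1 := hT v hv w hw hne
          apply h1
          have h2 : shift (rho r j) κ b v = shift (rho r j) κ b w := hvw
          rw [h2]
          exact not_sep_self hR hρ _
        let I := T.image fun v => shift (rho r j) κ b v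
        have hI : I.card = T.card := Finset.card_image_of_injOn hinj
        have hdisj : Disjoint A I := by
          rw [Finset.disjoint_left]
          intro f hf hfI
          obtain ⟨v, -, hv⟩ := Finset.mem_image.mp hfI
          have h1 := hAG f hf b (Finset.mem_insert_self _ _) κ v
          rw [hv] at h1
          exact not_sep_self hR hρ _ h1
        have hmem : ∀ f ∈ A ∪ I, f ∈ A ∨ ∃ v ∈ T, shift (rho r j) κ b v = f := by
          intro f hf
          rcases Finset.mem_union.mp hf with h | h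
          · exact Or.inl h
          · exact Or.inr (Finset.mem_image.mp h)
        have hih := ih (A ∪ I) ?_ ?_ ?_ ?_ ?_
        · rw [Finset.card_union_of_disjoint hdisj, hI, pow_add] at hih
          refine le_trans (le_of_eq ?_) (hih.trans (le_of_eq ?_))
          · congr 2
            ext V
            simp only [Finset.mem_filter, Finset.mem_univ, true_and, Finset.mem_union]
            constructor
            · rintro ⟨⟨h1, h2⟩, h3⟩
              refine ⟨?_, h2⟩
              rintro f (hf | hf)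
              · exact h1 f hf
              · obtain ⟨v, hv, rfl⟩ := Finset.mem_image.mp hf
                exact h3 v hv
            · rintro ⟨h1, h2⟩
              refine ⟨⟨fun f hf => h1 f (Or.inl hf), h2⟩, fun v hv => ?_⟩
              exact h1 _ (Or.inr (Finset.mem_image_of_mem _ hv))
          · ring
        · intro f hf
          rcases hmem f hf with h | ⟨v, -, rfl⟩
          · exact hA1 f h
          · have h1 := hG1 b (Finset.mem_insert_self _ _)
            have h2 := mul_off_le (ρ := rho r j) v.1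
            refine ⟨?_, fun l => ?_⟩
            · have := h1.1
              simp only [shift]
              rw [hρs] at this
              omega
            · have := h1.2 l
              have h3 := mul_off_le (ρ := rho r j) (v.2 (κ l))
              simp only [shift]
              rw [hρs] at this
              omega
        · intro f hf g hg hfg
          rcases hmem f hf with h | ⟨v, hv, rfl⟩
          · rcases hmem g hg with h' | ⟨w, hw, rfl⟩
            · exact hA2 f h g h' hfg
            · exact hAG f h b (Finset.mem_insert_self _ _) κ w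
          · rcases hmem g hg with h' | ⟨w, hw, rfl⟩
            · exact (hAG g h' b (Finset.mem_insert_self _ _) κ v).symm
            · have hne : v ≠ w := by
                rintro rfl
                exact hfg rfl
              exact not_not.mp (hT v hv w hw hne)
        · intro f hf
          exact hG1 f (Finset.mem_insert_of_mem hf)
        · intro f hf g hg hfg
          exact hG2 f (Finset.mem_insert_of_mem hf) g (Finset.mem_insert_of_mem hg) hfg
        · intro f hf g hg κ' w
          rcases hmem f hf with h | ⟨v, hv, rfl⟩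
          · exact hAG f h g (Finset.mem_insert_of_mem hg) κ' w
          · have hbg : b ≠ g := by
              rintro rfl
              exact hb hg
            have h1 := hG2 b (Finset.mem_insert_self _ _) g (Finset.mem_insert_of_mem hg) hbg
            rw [hρs] at h1
            exact h1.shift κ κ' v w
    have hp1 := hp (j + 1)
    have hpj := hp j
    calc ((univ.filter fun V : Fin n → Fin N =>
        (∀ f ∈ A, Bad r m W V j f) ∧ ∀ f ∈ insert b G, Bad r m W V (j + 1) f).card : ℝ)
        ≤ (((univ : Finset (Fin R → Fin R)).biUnion fun κ =>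
          univ.filter fun V => E0 V ∧ θ ≤ ((univ.filter fun v => bad κ v V).card : ℝ)).card : ℝ) := by
          exact_mod_cast Finset.card_le_card hsub
      _ ≤ ∑ κ : Fin R → Fin R, ((univ.filter fun V => E0 V ∧
          θ ≤ ((univ.filter fun v => bad κ v V).card : ℝ)).card : ℝ) := by
          exact_mod_cast Finset.card_biUnion_le
      _ ≤ ∑ κ : Fin R → Fin R, ((N : ℝ) ^ n * (p j) ^ A.card * (p (j + 1)) ^ G.card) *
          (3 * (R + 1) * m j * (p j + a j * (2 * R ^ 2) / (r j) ^ 2)) ^ (a j) :=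
          Finset.sum_le_sum fun κ _ => hone κ
      _ = ((N : ℝ) ^ n * (p j) ^ A.card * (p (j + 1)) ^ G.card) * ((R : ℝ) ^ R *
          (3 * (R + 1) * m j * (p j + a j * (2 * R ^ 2) / (r j) ^ 2)) ^ (a j)) := by
          simp only [Finset.sum_const, Finset.card_univ, Fintype.card_fun, Fintype.card_fin,
            nsmul_eq_mul]
          push_cast
          ring
      _ ≤ ((N : ℝ) ^ n * (p j) ^ A.card * (p (j + 1)) ^ G.card) * p (j + 1) := by
          apply mul_le_mul_of_nonneg_left hstep
          positivity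
      _ = (N : ℝ) ^ n * (p j) ^ A.card * (p (j + 1)) ^ (insert b G).card := by
          rw [Finset.card_insert_of_notMem hb, pow_succ]
          ring

end Step

theorem level_bound {n N R : ℕ} (hR : 0 < R) (r m a : ℕ → ℕ) (hr : ∀ j, 0 < r j)
    (hm : ∀ j, 0 < m j)
    (W B : ℕ) (p : ℕ → ℝ) (hp : ∀ j, 0 ≤ p j)
    (h0 : ∀ F : Finset (ℕ × (Fin R → ℕ)),
      (∀ f ∈ F, f.1 < B) → (∀ f ∈ F, ∀ l, f.2 l < N) →
      (∀ f ∈ F, ∀ g ∈ F, f ≠ g → f.1 ≠ g.1 ∨ ∀ l l', f.2 l ≠ g.2 l') →
      ((univ.filter fun V : Fin n → Fin N => ∀ f ∈ F, ¬ Emb V W f.1 f.2).card : ℝ) ≤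
        (N : ℝ) ^ n * (p 0) ^ F.card)
    (hstep : ∀ j, (R : ℝ) ^ R *
      (3 * (R + 1) * m j * (p j + a j * (2 * R ^ 2) / (r j) ^ 2)) ^ (a j) ≤ p (j + 1))
    (j : ℕ) : LevelBound n N R r m W B p j := by
  induction j with
  | zero =>
    intro F hF hsep
    have h1 : rho r 0 = 1 := by simp [rho]
    rw [h1] at hF hsep
    have h := h0 F (fun f hf => by have := (hF f hf).1; omega)
      (fun f hf l => by have := (hF f hf).2 l; omega) ?_
    · simpa [Bad] using h
    · intro f hf g hg hfg
      rcases hsep f hf g hg hfg with h | h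
      · left; omega
      · right
        intro l l'
        have := h l l'
        omega
  | succ j ih =>
    intro F hF hsep
    have h := mixed r m a W B p hR hr hm hp j ih (hstep j) F ∅ (by simp) (by simp) hF hsep
      (by simp)
    simpa using h

end Pool.H15.Univ
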