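import Mathlib
import Pool.Agent.H15.Univ.Defs
import Pool.Agent.H74.UnivM2

set_option autoImplicit false
open Classical Finset

namespace Pool.H15.Univ

theorem pos_lt (r m : ℕ → ℕ) (J : ℕ) (t : ℕ → ℕ → ℕ) (ht : ∀ l c, t l c < r l) {g g' : ℕ}
    (h : g < g') :
    g + (∑ l ∈ range J, rho r (l + 1) * (g / m l)) + (∑ l ∈ range J, rho r l * t l (g / m l)) <
    g' + (∑ l ∈ range J, rho r (l + 1) * (g' / m l)) +
      (∑ l ∈ range J, rho r l * t l (g' / m l)) := by
  have h1 : (∑ l ∈ range J, (rho r (l + 1) * (g / m l) + rho r l * t l (g / m l))) ≤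
      ∑ l ∈ range J, (rho r (l + 1) * (g' / m l) + rho r l * t l (g' / m l)) := by
    apply Finset.sum_le_sum
    intro l _
    rcases (Nat.div_le_div_right (c := m l) h.le).eq_or_lt with h2 | h2
    · rw [h2]
    · have h3 : rho r l * t l (g / m l) ≤ rho r (l + 1) := by
        rw [show rho r (l + 1) = rho r l * r l from Finset.prod_range_succ _ _]
        exact Nat.mul_le_mul_left _ (ht l _).le
      calc rho r (l + 1) * (g / m l) + rho r l * t l (g / m l)
          ≤ rho r (l + 1) * (g / m l) + rho r (l + 1) := by omega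
        _ = rho r (l + 1) * (g / m l + 1) := by ring
        _ ≤ rho r (l + 1) * (g' / m l) := Nat.mul_le_mul_left _ h2
        _ ≤ _ := Nat.le_add_right _ _
  rw [Finset.sum_add_distrib, Finset.sum_add_distrib] at h1
  omega

/-- exchange of coordinates: the fraction of bad assignments of all variables equals the
fraction of bad offset vectors, for a suitable labelling. -/
theorem count_swap {ι : Type*} [Fintype ι] [DecidableEq ι] {r R : ℕ} (hR : 0 < R) (c : ι)
    (w : Fin R → ι) (hc : ∀ l, w l ≠ c) (P : Fin r → (Fin R → Fin r) → Prop) :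
    ∃ κ : Fin R → Fin R,
      (univ.filter fun f : ι → Fin r => P (f c) (fun l => f (w l))).card * r ^ (R + 1) =
      (univ.filter fun v : Fin r × (Fin R → Fin r) => P v.1 (fun l => v.2 (κ l))).card *
        r ^ Fintype.card ι := by
  have : Nonempty (Fin R) := ⟨⟨0, hR⟩⟩
  obtain ⟨s, hs⟩ : ∃ s : ι → Fin R, ∀ l, w (s (w l)) = w l := by
    refine ⟨fun d => if h : ∃ l, w l = d then h.choose else ⟨0, hR⟩, fun l => ?_⟩
    have h : ∃ l', w l' = w l := ⟨l, rfl⟩
    simp only [h, dif_pos]
    exact h.choose_spec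
  refine ⟨fun l => s (w l), ?_⟩
  let Φ : (ι → Fin r) × (Fin r × (Fin R → Fin r)) → (ι → Fin r) × (Fin r × (Fin R → Fin r)) :=
    fun z => (fun i => if i = c then z.2.1 else if ∃ l, w l = i then z.2.2 (s i) else z.1 i,
      (z.1 c, fun l => if s (w l) = l then z.1 (w l) else z.2.2 l))
  have hΦ : Function.Involutive Φ := by
    rintro ⟨f, t, t'⟩
    simp only [Φ]
    refine Prod.ext ?_ (Prod.ext ?_ ?_)
    · funext i
      dsimp only
      by_cases h1 : i = c
      · subst h1; simp
      · rw [if_neg h1]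
        by_cases h2 : ∃ l, w l = i
        · rw [if_pos h2]
          obtain ⟨l, rfl⟩ := h2
          rw [hs l, if_pos rfl]
        · rw [if_neg h2, if_neg h1, if_neg h2]
    · simp
    · funext l
      dsimp only
      by_cases h1 : s (w l) = l
      · rw [if_pos h1, if_neg (hc l), if_pos ⟨l, rfl⟩, h1]
      · rw [if_neg h1, if_neg h1]
  have hcard : ((univ.filter fun f : ι → Fin r => P (f c) (fun l => f (w l))) ×ˢ
      (univ : Finset (Fin r × (Fin R → Fin r)))).card =
      ((univ : Finset (ι → Fin r)) ×ˢ (univ.filter fun v : Fin r × (Fin R → Fin r) =>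
        P v.1 (fun l => v.2 (s (w l))))).card := by
    apply Finset.card_bij (fun z _ => Φ z)
    · rintro ⟨f, t, t'⟩ hz
      simp only [Finset.mem_product, Finset.mem_filter, Finset.mem_univ, true_and, and_true] at hz
      simp only [Finset.mem_product, Finset.mem_filter, Finset.mem_univ, true_and, Φ, hs, if_true]
      exact hz
    · intro a _ b _ h
      exact hΦ.injective h
    · rintro ⟨f, t, t'⟩ hz
      refine ⟨Φ (f, t, t'), ?_, hΦ _⟩
      simp only [Finset.mem_product, Finset.mem_filter, Finset.mem_univ, true_and] at hz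
      simp only [Finset.mem_product, Finset.mem_filter, Finset.mem_univ, true_and, and_true, Φ,
        if_true]
      have h1 : (fun l => if w l = c then t else if ∃ l_1, w l_1 = w l then t' (s (w l))
          else f (w l)) = fun l => t' (s (w l)) := by
        funext l
        rw [if_neg (hc l), if_pos ⟨l, rfl⟩]
      rw [h1]
      exact hz
  rw [Finset.card_product, Finset.card_product] at hcard
  have h2 : (univ : Finset (Fin r × (Fin R → Fin r))).card = r ^ (R + 1) := by
    simp [pow_succ, mul_comm]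
  have h3 : (univ : Finset (ι → Fin r)).card = r ^ Fintype.card ι := by
    simp
  rw [h2, h3] at hcard
  rw [hcard, mul_comm]

theorem card_div_le (M m c : ℕ) :
    (univ.filter fun v : Fin M => (v : ℕ) / m = c).card ≤ m ∨ m = 0 := by
  rcases Nat.eq_zero_or_pos m with h | h
  · exact Or.inr h
  left
  have h1 : (univ.filter fun v : Fin M => (v : ℕ) / m = c).card ≤
      (Finset.Ico (c * m) (c * m + m)).card := by
    apply Finset.card_le_card_of_injOn (fun v : Fin M => (v : ℕ))
    · intro v hv
      have hv' : (v : ℕ) / m = c := by simpa using hv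
      simp only [Finset.coe_Ico, Set.mem_Ico]
      have h2 := Nat.div_add_mod (v : ℕ) m
      have h3 := Nat.mod_lt (v : ℕ) h
      rw [hv'] at h2
      rw [mul_comm c m]
      omega
    · intro x _ y _ hxy
      exact Fin.ext hxy
  rw [Nat.card_Ico] at h1
  omega

section Main

variable {n N R q : ℕ}

/-- index number `l` of base block `g` -/
def idx (g : Fin q) (l : Fin R) : Fin (q * R) := finProdFinEquiv (g, l)

theorem lll_step (hR : 0 < R) (r m : ℕ → ℕ) (hr : ∀ j, 0 < r j) (hm : ∀ j, 0 < m j)
    (W : ℕ) (V : Fin n → Fin N) (σ : Equiv.Perm (Fin (q * R))) (x : Fin q → ℕ)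
    (y : Fin (q * R) → ℕ) (j : ℕ)
    (hnb : ∀ g, ¬ Bad r m W V (j + 1) (x g, fun l => y (σ (idx g l)))) :
    ∃ t t' : ℕ → ℕ, (∀ c, t c < r j) ∧ (∀ c, t' c < r j) ∧
      ∀ g : Fin q, ¬ Bad r m W V j (x g + rho r j * t ((g : ℕ) / m j),
        fun l : Fin R => y (σ (idx g l)) + rho r j * t' ((σ (idx g l) : ℕ) / m j)) := by
  let col : Fin q → Fin q := fun g => ⟨(g : ℕ) / m j, (Nat.div_le_self _ _).trans_lt g.2⟩
  let row : Fin (q * R) → Fin (q * R) := fun v => ⟨(v : ℕ) / m j,
    (Nat.div_le_self _ _).trans_lt v.2⟩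
  let vars : Fin q → Finset (Fin q ⊕ Fin (q * R)) := fun g =>
    insert (Sum.inl (col g)) (univ.image fun l : Fin R => Sum.inr (row (σ (idx g l))))
  let bad : Fin q → ((Fin q ⊕ Fin (q * R)) → Fin (r j)) → Prop := fun g f =>
    Bad r m W V j (x g + rho r j * f (Sum.inl (col g)),
      fun l : Fin R => y (σ (idx g l)) + rho r j * f (Sum.inr (row (σ (idx g l)))))
  have hdep : ∀ e f g, (∀ i ∈ vars e, f i = g i) → bad e f → bad e g := by
    intro g f f' hff' h
    have h1 : f (Sum.inl (col g)) = f' (Sum.inl (col g)) :=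
      hff' _ (Finset.mem_insert_self _ _)
    have h2 : ∀ l, f (Sum.inr (row (σ (idx g l)))) = f' (Sum.inr (row (σ (idx g l)))) := by
      intro l
      apply hff'
      exact Finset.mem_insert_of_mem (Finset.mem_image_of_mem _ (Finset.mem_univ l))
    simp only [bad] at h ⊢
    simp only [← h1, ← h2]
    exact h
  have hcard : ∀ e, (vars e).card ≤ R + 1 := by
    intro g
    refine (Finset.card_insert_le _ _).trans ?_
    have := (Finset.card_image_le (s := (univ : Finset (Fin R)))
      (f := fun l : Fin R => (Sum.inr (row (σ (idx g l))) : Fin q ⊕ Fin (q * R))))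
    simp only [Finset.card_univ, Fintype.card_fin] at this
    omega
  have hdeg : ∀ i, (univ.filter fun e => i ∈ vars e).card ≤ m j := by
    rintro (c | c)
    · have h1 : (univ.filter fun g : Fin q => Sum.inl c ∈ vars g) ⊆
          univ.filter fun g : Fin q => (g : ℕ) / m j = (c : ℕ) := by
        intro g hg
        simp only [Finset.mem_filter, Finset.mem_univ, true_and, vars, Finset.mem_insert,
          Finset.mem_image, Sum.inl.injEq, reduceCtorEq, exists_false, or_false] at hg
        simp only [Finset.mem_filter, Finset.mem_univ, true_and]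
        rw [hg]
      rcases card_div_le q (m j) (c : ℕ) with h2 | h2
      · exact (Finset.card_le_card h1).trans h2
      · exact absurd h2 (hm j).ne'
    · have h1 : (univ.filter fun g : Fin q => Sum.inr c ∈ vars g) ⊆
          (univ.filter fun v : Fin (q * R) => (v : ℕ) / m j = (c : ℕ)).image
            fun v => (finProdFinEquiv.symm (σ.symm v) : Fin q × Fin R).1 := by
        intro g hg
        simp only [Finset.mem_filter, Finset.mem_univ, true_and, vars, Finset.mem_insert,
          Finset.mem_image, reduceCtorEq, false_or, Sum.inr.injEq] at hg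
        obtain ⟨l, hl⟩ := hg
        simp only [Finset.mem_image, Finset.mem_filter, Finset.mem_univ, true_and]
        refine ⟨σ (idx g l), ?_, ?_⟩
        · rw [← hl]
        · simp [idx]
      rcases card_div_le (q * R) (m j) (c : ℕ) with h2 | h2
      · exact (Finset.card_le_card h1).trans (Finset.card_image_le.trans h2)
      · exact absurd h2 (hm j).ne'
  have hP : ∀ e, 3 * (R + 1) * m j *
      (univ.filter fun f : (Fin q ⊕ Fin (q * R)) → Fin (r j) => bad e f).card ≤
      (r j) ^ Fintype.card (Fin q ⊕ Fin (q * R)) := by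
    intro g
    obtain ⟨κ, hκ⟩ := count_swap (r := r j) hR (Sum.inl (col g) : Fin q ⊕ Fin (q * R))
      (fun l => Sum.inr (row (σ (idx g l)))) (by simp)
      (fun t t' => Bad r m W V j (x g + rho r j * t, fun l => y (σ (idx g l)) + rho r j * t' l))
    have h1 := hnb g
    rw [Bad] at h1
    push Not at h1
    have h2 := h1 κ
    have hrpos : 0 < (r j) ^ (R + 1) := pow_pos (hr j) _
    apply Nat.le_of_mul_le_mul_right _ hrpos
    have h3 : (univ.filter fun f : (Fin q ⊕ Fin (q * R)) → Fin (r j) => bad g f).card *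
        (r j) ^ (R + 1) = (univ.filter fun v : Fin (r j) × (Fin R → Fin (r j)) =>
          Bad r m W V j (shift (rho r j) κ (x g, fun l => y (σ (idx g l))) v)).card *
          (r j) ^ Fintype.card (Fin q ⊕ Fin (q * R)) := hκ
    calc 3 * (R + 1) * m j * (univ.filter fun f => bad g f).card * (r j) ^ (R + 1)
        = 3 * (R + 1) * m j * ((univ.filter fun f => bad g f).card * (r j) ^ (R + 1)) := by ring
      _ = (3 * (R + 1) * m j * (univ.filter fun v : Fin (r j) × (Fin R → Fin (r j)) =>
          Bad r m W V j (shift (rho r j) κ (x g, fun l => y (σ (idx g l))) v)).card) *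
          (r j) ^ Fintype.card (Fin q ⊕ Fin (q * R)) := by rw [h3]; ring
      _ ≤ (r j) ^ (R + 1) * (r j) ^ Fintype.card (Fin q ⊕ Fin (q * R)) :=
          Nat.mul_le_mul_right _ h2
      _ = _ := by ring
  obtain ⟨f, hf⟩ := local_lemma (hr j) hR (hm j) vars bad hdep hcard hdeg hP
  refine ⟨fun c => if h : c < q then f (Sum.inl ⟨c, h⟩) else 0,
    fun c => if h : c < q * R then f (Sum.inr ⟨c, h⟩) else 0, ?_, ?_, ?_⟩
  · intro c
    dsimp only
    split_ifs
    · exact (f _).2
    · exact hr j
  · intro c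
    dsimp only
    split_ifs
    · exact (f _).2
    · exact hr j
  · intro g
    have h := hf g
    have h1 : (g : ℕ) / m j < q := (Nat.div_le_self _ _).trans_lt g.2
    have h2 : ∀ l : Fin R, (σ (idx g l) : ℕ) / m j < q * R :=
      fun l => (Nat.div_le_self _ _).trans_lt (σ (idx g l)).2
    simp only [dif_pos h1, h2, dif_pos]
    exact h

theorem descend (hR : 0 < R) (r m : ℕ → ℕ) (hr : ∀ j, 0 < r j) (hm : ∀ j, 0 < m j)
    (W B J : ℕ) (V : Fin n → Fin N)
    (hB : ∀ g < q, g + (∑ l ∈ range J, rho r (l + 1) * (g / m l)) + rho r J ≤ B)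
    (hNb : ∀ v < q * R, v + (∑ l ∈ range J, rho r (l + 1) * (v / m l)) + rho r J ≤ N)
    (hgood : ∀ f : ℕ × (Fin R → ℕ), f.1 + rho r J ≤ B → (∀ l, f.2 l + rho r J ≤ N) →
      ¬ Bad r m W V J f) (σ : Equiv.Perm (Fin (q * R))) (i : ℕ) (hi : i ≤ J) :
    ∃ t t' : ℕ → ℕ → ℕ, (∀ l c, t l c < r l) ∧ (∀ l c, t' l c < r l) ∧
      ∀ g : Fin q, ¬ Bad r m W V (J - i)
        ((g : ℕ) + (∑ l ∈ range J, rho r (l + 1) * ((g : ℕ) / m l)) +
          (∑ l ∈ Ico (J - i) J, rho r l * t l ((g : ℕ) / m l)),
        fun l' : Fin R => (σ (idx g l') : ℕ) +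
          (∑ l ∈ range J, rho r (l + 1) * ((σ (idx g l') : ℕ) / m l)) +
          (∑ l ∈ Ico (J - i) J, rho r l * t' l ((σ (idx g l') : ℕ) / m l))) := by
  induction i with
  | zero =>
    refine ⟨fun _ _ => 0, fun _ _ => 0, fun l _ => hr l, fun l _ => hr l, fun g => ?_⟩
    simp only [Nat.sub_zero, Finset.Ico_self, Finset.sum_empty, add_zero]
    apply hgood
    · exact hB g g.2
    · intro l
      exact hNb _ (σ (idx g l)).2
  | succ i ih =>
    obtain ⟨t, t', ht, ht', hnb⟩ := ih (by omega)
    obtain ⟨j, hj⟩ : ∃ j, J - i = j + 1 := ⟨J - (i + 1), by omega⟩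
    have hj2 : J - (i + 1) = j := by omega
    rw [hj] at hnb
    rw [hj2]
    obtain ⟨u, u', hu, hu', hnew⟩ := lll_step hR r m hr hm W V σ _ 
      (fun v : Fin (q * R) => (v : ℕ) +
          (∑ l ∈ range J, rho r (l + 1) * ((v : ℕ) / m l)) +
          (∑ l ∈ Ico (j + 1) J, rho r l * t' l ((v : ℕ) / m l))) j hnb
    refine ⟨Function.update t j u, Function.update t' j u', ?_, ?_, ?_⟩
    · intro l c
      by_cases h : l = j
      · subst h; simpa using hu c
      · rw [Function.update_of_ne h]; exact ht l c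
    · intro l c
      by_cases h : l = j
      · subst h; simpa using hu' c
      · rw [Function.update_of_ne h]; exact ht' l c
    · intro g
      have hsum : ∀ (s : ℕ → ℕ → ℕ) (w : ℕ → ℕ) (z : ℕ),
          (∑ l ∈ Ico j J, rho r l * Function.update s j w l (z / m l)) =
          (∑ l ∈ Ico (j + 1) J, rho r l * s l (z / m l)) + rho r j * w (z / m j) := by
        intro s w z
        rw [Finset.sum_eq_sum_Ico_succ_bot (by omega : j < J)]
        rw [Function.update_self, add_comm]
        congr 1
        apply Finset.sum_congr rfl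
        intro l hl
        rw [Function.update_of_ne]
        have := (Finset.mem_Ico.mp hl).1
        omega
      simp only [hsum]
      have h := hnew g
      simp only [add_assoc] at h ⊢
      exact h

theorem embed (hR : 0 < R) (r m : ℕ → ℕ) (hr : ∀ j, 0 < r j) (hm : ∀ j, 0 < m j)
    (W B J : ℕ) (V : Fin n → Fin N)
    (hB : ∀ g < q, g + (∑ l ∈ range J, rho r (l + 1) * (g / m l)) + rho r J ≤ B)
    (hNb : ∀ v < q * R, v + (∑ l ∈ range J, rho r (l + 1) * (v / m l)) + rho r J ≤ N)
    (hgood : ∀ f : ℕ × (Fin R → ℕ), f.1 + rho r J ≤ B → (∀ l, f.2 l + rho r J ≤ N) →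
      ¬ Bad r m W V J f) :
    StripUniv (q * R) n N V := by
  intro σ
  obtain ⟨t, t', ht, ht', hnb⟩ := descend hR r m hr hm W B J V hB hNb hgood σ J le_rfl
  simp only [Nat.sub_self, Bad, not_not] at hnb
  simp only [← Finset.range_eq_Ico] at hnb
  choose c hc1 hc2 using hnb
  let X : ℕ → ℕ := fun g => g + (∑ l ∈ range J, rho r (l + 1) * (g / m l)) +
    (∑ l ∈ range J, rho r l * t l (g / m l))
  let Y : ℕ → ℕ := fun g => g + (∑ l ∈ range J, rho r (l + 1) * (g / m l)) +
    (∑ l ∈ range J, rho r l * t' l (g / m l))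
  have hX : StrictMono X := fun a b hab => pos_lt r m J t ht hab
  have hY : StrictMono Y := fun a b hab => pos_lt r m J t' ht' hab
  let C : Fin (q * R) → Fin n := fun i =>
    c (finProdFinEquiv.symm i : Fin q × Fin R).1 (finProdFinEquiv.symm i : Fin q × Fin R).2
  have hCV : ∀ i, (V (C i) : ℕ) = Y (σ i) := by
    intro i
    have h := (hc2 (finProdFinEquiv.symm i : Fin q × Fin R).1
      (finProdFinEquiv.symm i : Fin q × Fin R).2).2
    have h2 : idx (finProdFinEquiv.symm i : Fin q × Fin R).1
      (finProdFinEquiv.symm i : Fin q × Fin R).2 = i := by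
      unfold idx
      exact finProdFinEquiv.apply_symm_apply i
    dsimp only at h
    rw [h2] at h
    exact h
  have hCW : ∀ i, (C i : ℕ) / W = X ((finProdFinEquiv.symm i : Fin q × Fin R).1 : ℕ) := by
    intro i
    exact (hc2 _ _).1
  refine ⟨C, fun v => V (C (σ.symm v)), ?_, ?_, ?_⟩
  · intro a b hab
    set ga := (finProdFinEquiv.symm a : Fin q × Fin R) with hga
    set gb := (finProdFinEquiv.symm b : Fin q × Fin R) with hgb
    have ea : a = finProdFinEquiv ga := (finProdFinEquiv.apply_symm_apply a).symm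
    have eb : b = finProdFinEquiv gb := (finProdFinEquiv.apply_symm_apply b).symm
    have hval : (ga.2 : ℕ) + R * (ga.1 : ℕ) < (gb.2 : ℕ) + R * (gb.1 : ℕ) := by
      have h := hab
      rw [ea, eb, Fin.lt_def] at h
      simpa [finProdFinEquiv_apply_val] using h
    have ha2 := ga.2.2
    have hb2 := gb.2.2
    rcases lt_trichotomy (ga.1 : ℕ) (gb.1 : ℕ) with h | h | h
    · have h1 := hX h
      have h2 := hCW a
      have h3 := hCW b
      rw [Fin.lt_def]
      by_contra hcon
      have h4 := Nat.div_le_div_right (c := W) (not_lt.mp hcon)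
      rw [h2, h3] at h4
      exact absurd h1 (not_lt.mpr h4)
    · have h5 : ga.1 = gb.1 := Fin.ext h
      have h6 : ga.2 < gb.2 := by
        rw [Fin.lt_def]
        rw [h] at hval
        omega
      show c ga.1 ga.2 < c gb.1 gb.2
      rw [h5]
      exact hc1 gb.1 h6
    · exfalso
      have h7 : R * ((gb.1 : ℕ) + 1) ≤ R * (ga.1 : ℕ) := Nat.mul_le_mul_left _ h
      rw [mul_add, mul_one] at h7
      omega
  · intro a b hab
    rw [Fin.lt_def]
    dsimp only
    rw [hCV, hCV]
    apply hY
    simpa using hab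
  · intro i
    simp

end Main

end Pool.H15.Univ
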