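import Pool.Agent.H15.Univ.M1
import Pool.Agent.H15.Univ.M5
import Pool.Agent.H15.Univ.M6
import Pool.Agent.H80.UnivM3
import Pool.Agent.H80.UnivM7a

/-!
Assembly of the theorem on `(1+ε) k²`.
-/

set_option autoImplicit false
open Classical Finset

namespace Pool.H15.Univ

/-- the level zero probability -/
theorem zero_prob (R : ℕ) (e t : ℝ) (he : 0 < e) (he1 : e ≤ 1 / 2) (ht : (1 + e) * R ≤ t) :
    (((1 - e / 2) ^ R)⁻¹ * Real.exp (-((1 - (1 - e / 2)) * t))) ≤
      Real.exp (-(R * e ^ 2 / 4)) := by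
  have hx : (1 - e / 2)⁻¹ ≤ Real.exp (e / 2 + e ^ 2 / 4) := by
    have h1 : 0 < 1 - e / 2 := by linarith
    rw [inv_le_iff_one_le_mul₀ h1]
    have h2 := Real.quadratic_le_exp_of_nonneg (show 0 ≤ e / 2 + e ^ 2 / 4 by positivity)
    have h3 : 1 ≤ (1 + (e / 2 + e ^ 2 / 4) + (e / 2 + e ^ 2 / 4) ^ 2 / 2) * (1 - e / 2) := by
      have h4 : (1 + (e / 2 + e ^ 2 / 4) + (e / 2 + e ^ 2 / 4) ^ 2 / 2) * (1 - e / 2) - 1 =
          e ^ 2 / 4 * ((1 + e / 2) ^ 2 / 2 * (1 - e / 2) - e / 2) := by ring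
      have h5 : 0 ≤ (1 + e / 2) ^ 2 / 2 * (1 - e / 2) - e / 2 := by
        have h6 : 1 ≤ (1 + e / 2) ^ 2 := by nlinarith
        have h7 : 1 / 2 * (1 - e / 2) ≤ (1 + e / 2) ^ 2 / 2 * (1 - e / 2) := by
          apply mul_le_mul_of_nonneg_right _ h1.le
          linarith
        have h8 : e ≤ 1 / 2 := he1
        by_cases h9 : e ≤ 1 / 2
        · nlinarith
        · linarith
      have h10 : 0 ≤ e ^ 2 / 4 * ((1 + e / 2) ^ 2 / 2 * (1 - e / 2) - e / 2) := by positivity
      linarith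
    calc 1 ≤ _ := h3
      _ ≤ _ := mul_le_mul_of_nonneg_right h2 h1.le
  have h2 : ((1 - e / 2) ^ R)⁻¹ ≤ Real.exp (R * (e / 2 + e ^ 2 / 4)) := by
    rw [← inv_pow, Real.exp_nat_mul]
    apply pow_le_pow_left₀ _ hx
    have : 0 < 1 - e / 2 := by linarith
    positivity
  calc ((1 - e / 2) ^ R)⁻¹ * Real.exp (-((1 - (1 - e / 2)) * t)) ≤
      Real.exp (R * (e / 2 + e ^ 2 / 4)) * Real.exp (-((1 - (1 - e / 2)) * t)) :=
        mul_le_mul_of_nonneg_right h2 (Real.exp_nonneg _)
    _ = Real.exp (R * (e / 2 + e ^ 2 / 4) + -((1 - (1 - e / 2)) * t)) := (Real.exp_add _ _).symm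
    _ ≤ _ := by
      apply Real.exp_le_exp.mpr
      have h3 := mul_le_mul_of_nonneg_left ht (show (0 : ℝ) ≤ e / 2 by positivity)
      have h4 : (R : ℝ) * (e / 2 + e ^ 2 / 4) + -((1 - (1 - e / 2)) * t) =
        (R : ℝ) * (e / 2 + e ^ 2 / 4) - e / 2 * t := by ring
      rw [h4]
      have h5 : e / 2 * ((1 + e) * R) = R * (e / 2 + e ^ 2 / 4) + R * e ^ 2 / 4 := by ring
      linarith

/-- union bound over all tuples -/
theorem union_bad {n N R : ℕ} (r m : ℕ → ℕ) (hr : ∀ j, 0 < r j) (W B : ℕ) (p : ℕ → ℝ) (J : ℕ)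
    (hp : 0 ≤ p J) (hlb : LevelBound n N R r m W B p J) :
    ((univ.filter fun V : Fin n → Fin N => ∃ f : ℕ × (Fin R → ℕ), f.1 + rho r J ≤ B ∧
      (∀ l, f.2 l + rho r J ≤ N) ∧ Bad r m W V J f).card : ℝ) ≤
      (B * N ^ R : ℕ) * ((N : ℝ) ^ n * p J) := by
  have hρ := rho_pos r hr J
  let T := (univ : Finset (Fin B × (Fin R → Fin N)))
  let toN : Fin B × (Fin R → Fin N) → ℕ × (Fin R → ℕ) := fun x => (x.1, fun l => x.2 l)
  let Sx : Fin B × (Fin R → Fin N) → Finset (Fin n → Fin N) := fun x =>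
    univ.filter fun V : Fin n → Fin N => (toN x).1 + rho r J ≤ B ∧
      (∀ l, (toN x).2 l + rho r J ≤ N) ∧ Bad r m W V J (toN x)
  have h1 : (univ.filter fun V : Fin n → Fin N => ∃ f : ℕ × (Fin R → ℕ), f.1 + rho r J ≤ B ∧
      (∀ l, f.2 l + rho r J ≤ N) ∧ Bad r m W V J f) ⊆ T.biUnion Sx := by
    intro V hV
    rw [Finset.mem_filter] at hV
    obtain ⟨f, h1, h2, h3⟩ := hV.2
    rw [Finset.mem_biUnion]
    refine ⟨(⟨f.1, by omega⟩, fun l => ⟨f.2 l, by have := h2 l; omega⟩), Finset.mem_univ _, ?_⟩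
    rw [Finset.mem_filter]
    exact ⟨Finset.mem_univ _, h1, h2, h3⟩
  have h2 : ∀ x ∈ T, ((Sx x).card : ℝ) ≤ (N : ℝ) ^ n * p J := by
    intro x _
    by_cases hx : (toN x).1 + rho r J ≤ B ∧ ∀ l, (toN x).2 l + rho r J ≤ N
    · have h3 := hlb {toN x} (by simpa using hx) (by
        intro f hf g hg hfg
        rw [Finset.mem_singleton] at hf hg
        exact absurd (hf.trans hg.symm) hfg)
      rw [Finset.card_singleton, pow_one] at h3
      refine le_trans ?_ h3
      apply Nat.cast_le.mpr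
      apply Finset.card_le_card
      intro V hV
      rw [Finset.mem_filter] at hV ⊢
      refine ⟨Finset.mem_univ _, ?_⟩
      intro f hf
      rw [Finset.mem_singleton] at hf
      rw [hf]
      exact hV.2.2.2
    · have h3 : Sx x = ∅ := by
        apply Finset.filter_eq_empty_iff.mpr
        rintro V - ⟨h4, h5, -⟩
        exact hx ⟨h4, h5⟩
      rw [h3, Finset.card_empty, Nat.cast_zero]
      positivity
  calc ((univ.filter fun V : Fin n → Fin N => ∃ f : ℕ × (Fin R → ℕ), f.1 + rho r J ≤ B ∧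
      (∀ l, f.2 l + rho r J ≤ N) ∧ Bad r m W V J f).card : ℝ) ≤ ((T.biUnion Sx).card : ℝ) :=
        Nat.cast_le.mpr (Finset.card_le_card h1)
    _ ≤ ∑ x ∈ T, ((Sx x).card : ℝ) := by exact_mod_cast Finset.card_biUnion_le
    _ ≤ ∑ _x ∈ T, (N : ℝ) ^ n * p J := Finset.sum_le_sum h2
    _ = _ := by
      rw [Finset.sum_const, nsmul_eq_mul]
      congr 2
      simp [T]

/-- **Theorem.**  For every `ε > 0`, a random permutation of length `n ≥ (1+ε) k²` is
`k`-universal with probability tending to one. -/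
theorem main (ε : ℝ) (hε : 0 < ε) (δ : ℝ) (hδ : 0 < δ) :
    ∃ K : ℕ, ∀ k : ℕ, K ≤ k → ∀ n : ℕ, (1 + ε) * (k : ℝ) ^ 2 ≤ (n : ℝ) →
      (1 - δ) * (Nat.factorial n : ℝ) ≤
        ((univ.filter fun π : Equiv.Perm (Fin n) => Universal k n π).card : ℝ) := by
  obtain ⟨e, he⟩ : ∃ e : ℝ, e = min (1 / 2) (ε / 20) := ⟨_, rfl⟩
  have he0 : 0 < e := by rw [he]; positivity
  have he1 : e ≤ 1 / 2 := by rw [he]; exact min_le_left _ _
  have he2 : e ≤ ε / 20 := by rw [he]; exact min_le_right _ _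
  obtain ⟨R, r, m, a, p, hR, hr, hm, hp, hp0, hstep, hsum, hJ⟩ := params e he0 (by linarith)
  have hR1 : (1 : ℝ) ≤ R := by exact_mod_cast hR
  have hR0 : (0 : ℝ) < R := by linarith
  obtain ⟨η, hη⟩ : ∃ η : ℝ, η = min (δ / 2) (e / (4 * R)) := ⟨_, rfl⟩
  have hη0 : 0 < η := by rw [hη]; positivity
  have hη1 : η ≤ δ / 2 := by rw [hη]; exact min_le_left _ _
  have hη2 : η ≤ e / (4 * R) := by rw [hη]; exact min_le_right _ _
  obtain ⟨K, hK⟩ := hJ η hη0
  obtain ⟨K1, hK1⟩ := exists_nat_ge (8 * R / e + 8 / ε + 8)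
  refine ⟨max K K1, fun k hk n hn => ?_⟩
  obtain ⟨J, hJ1, hJ2⟩ := hK k ((le_max_left _ _).trans hk)
  have hk1 : 8 * R / e + 8 / ε + 8 ≤ (k : ℝ) := by
    refine hK1.trans ?_
    exact_mod_cast (le_max_right _ _).trans hk
  have hkR : 8 * R ≤ e * k := by
    have h1 : 8 * R / e ≤ (k : ℝ) := by
      have : 0 ≤ 8 / ε := by positivity
      linarith
    rw [div_le_iff₀ he0] at h1
    linarith
  have hkε : 8 ≤ ε * k := by
    have h1 : 8 / ε ≤ (k : ℝ) := by
      have : 0 ≤ 8 * R / e := by positivity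
      linarith
    rw [div_le_iff₀ hε] at h1
    linarith
  have hk8 : 8 ≤ (k : ℝ) := by
    have h1 : 0 ≤ 8 * R / e := by positivity
    have h2 : 0 ≤ 8 / ε := by positivity
    linarith
  have hk0 : (0 : ℝ) < k := by linarith
  -- the sizes
  obtain ⟨N, hN⟩ : ∃ N : ℕ, N = ⌊(1 + 2 * e) * k⌋₊ := ⟨_, rfl⟩
  have hNu : (N : ℝ) ≤ (1 + 2 * e) * k := by
    rw [hN]; exact Nat.floor_le (by positivity)
  have hNl : (1 + 2 * e) * k - 1 ≤ N := by
    rw [hN]
    have := (Nat.lt_floor_add_one ((1 + 2 * e) * (k : ℝ))).le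
    linarith
  obtain ⟨B, hB⟩ : ∃ B : ℕ, B = ⌊(1 + 2 * e) * k / R⌋₊ := ⟨_, rfl⟩
  have hBu : (B : ℝ) ≤ (1 + 2 * e) * k / R := by
    rw [hB]; exact Nat.floor_le (by positivity)
  have hBl : (1 + 2 * e) * k / R - 1 ≤ B := by
    rw [hB]
    have := (Nat.lt_floor_add_one ((1 + 2 * e) * (k : ℝ) / R)).le
    linarith
  obtain ⟨W, hW⟩ : ∃ W : ℕ, W = ⌈(1 + e) * R * N⌉₊ := ⟨_, rfl⟩
  have hWl : (1 + e) * R * N ≤ W := by rw [hW]; exact Nat.le_ceil _
  have hWu : (W : ℝ) ≤ (1 + e) * R * N + 1 := by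
    rw [hW]; exact (Nat.ceil_lt_add_one (by positivity)).le
  have hN0' : (0 : ℝ) < N := by
    have : 0 ≤ 2 * e * k := by positivity
    linarith
  have hN0 : 0 < N := by exact_mod_cast hN0'
  have h2e : (1 + 2 * e) * k ≤ 2 * k := mul_le_mul_of_nonneg_right (by linarith) hk0.le
  have hN2 : (N : ℝ) ≤ 2 * k := hNu.trans h2e
  have hB2' : (1 + 2 * e) * k / R ≤ 2 * k := by
    rw [div_le_iff₀ hR0]
    have : 2 * (k : ℝ) * 1 ≤ 2 * k * R := mul_le_mul_of_nonneg_left hR1 (by positivity)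
    linarith
  have hB2 : (B : ℝ) ≤ 2 * k := hBu.trans hB2'
  -- the total number of columns
  have hBW : B * W ≤ n := by
    have h1 : (B : ℝ) * W ≤ n := by
      refine le_trans ?_ hn
      have h2 : (W : ℝ) ≤ (1 + e) * R * ((1 + 2 * e) * k) + 1 := by
        have := mul_le_mul_of_nonneg_left hNu (show (0 : ℝ) ≤ (1 + e) * R by positivity)
        linarith
      have h3 : (B : ℝ) * W ≤ ((1 + 2 * e) * k / R) * ((1 + e) * R * ((1 + 2 * e) * k) + 1) :=
        mul_le_mul hBu h2 (Nat.cast_nonneg _) (by positivity)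
      have h4 : ((1 + 2 * e) * k / R) * ((1 + e) * R * ((1 + 2 * e) * k) + 1) =
          (1 + 2 * e) ^ 2 * (1 + e) * k ^ 2 + (1 + 2 * e) * k / R := by
        field_simp
      have h5 : (1 + 2 * e) ^ 2 * (1 + e) ≤ 1 + ε / 2 := by
        have h6 : e ^ 2 ≤ 1 / 2 * e := by
          rw [pow_two]; exact mul_le_mul_of_nonneg_right he1 he0.le
        have h7 : e ^ 3 ≤ 1 / 4 * e := by
          have : e ^ 3 = e ^ 2 * e := by ring
          rw [this]
          apply mul_le_mul_of_nonneg_right _ he0.le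
          linarith
        have h8 : (1 + 2 * e) ^ 2 * (1 + e) = 1 + 5 * e + 8 * e ^ 2 + 4 * e ^ 3 := by ring
        linarith
      have h6 := mul_le_mul_of_nonneg_right h5 (show (0 : ℝ) ≤ (k : ℝ) ^ 2 by positivity)
      have h7 : 2 * (k : ℝ) ≤ ε / 2 * k ^ 2 := by
        have := mul_le_mul_of_nonneg_right hkε hk0.le
        have h8 : ε / 2 * (k : ℝ) ^ 2 = 1 / 2 * (ε * k * k) := by ring
        linarith
      linarith
    exact_mod_cast h1
  -- the level bound
  have hlb : LevelBound n N R r m W B p J := by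
    apply level_bound hR r m a hr hm W B p hp _ hstep
    intro F hF1 hF2 hF3
    have h1 := level_zero W B hBW hN0 (1 - e / 2) (by linarith) (by linarith) F hF1 hF2 hF3
    refine h1.trans ?_
    apply mul_le_mul_of_nonneg_left _ (by positivity)
    have h2 := zero_prob R e (W / N) he0 he1 (by rw [le_div_iff₀ hN0']; exact hWl)
    rw [hp0]
    apply pow_le_pow_left₀
    · have : 0 < 1 - e / 2 := by linarith
      positivity
    · rw [← mul_div_assoc] at h2
      exact h2
  have hub := union_bad r m hr W B p J (hp J) hlb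
  -- good `V` are universal
  obtain ⟨q, hq⟩ : ∃ q : ℕ, q = k / R + 1 := ⟨_, rfl⟩
  have hkq : k ≤ q * R := by
    rw [hq]
    have := Nat.div_add_mod k R
    have h2 := Nat.mod_lt k hR
    have h3 : (k / R + 1) * R = R * (k / R) + R := by ring
    omega
  have hqR : q * R ≤ k + R := by
    rw [hq]
    have := Nat.div_mul_le_self k R
    have h3 : (k / R + 1) * R = k / R * R + R := by ring
    omega
  have hρ : (rho r J : ℝ) ≤ e * k / (4 * R) := by
    refine hJ1.trans ?_
    have := mul_le_mul_of_nonneg_right hη2 hk0.le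
    rw [div_mul_eq_mul_div] at this
    exact this
  have hek : e * k / (4 * R) ≤ e * k / 4 := by
    apply div_le_div_of_nonneg_left (by positivity) (by norm_num)
    linarith
  have hgood : ∀ V : Fin n → Fin N, (¬ ∃ f : ℕ × (Fin R → ℕ), f.1 + rho r J ≤ B ∧
      (∀ l, f.2 l + rho r J ≤ N) ∧ Bad r m W V J f) → StripUniv k n N V := by
    intro V hV
    apply stripUniv_mono hkq
    apply embed hR r m hr hm W B J V
    · intro g hg
      have h1 := hsum J g
      have h2 : (g : ℝ) ≤ k / R := by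
        have h3 : g ≤ k / R := by omega
        calc (g : ℝ) ≤ ((k / R : ℕ) : ℝ) := by exact_mod_cast h3
          _ ≤ _ := Nat.cast_div_le
      have h4 : ((g + (∑ l ∈ range J, rho r (l + 1) * (g / m l)) + rho r J : ℕ) : ℝ) ≤ B := by
        rw [Nat.cast_add, Nat.cast_add]
        have h5 : e * (g : ℝ) ≤ e * (k / R) := mul_le_mul_of_nonneg_left h2 he0.le
        have h6 : (1 + 2 * e) * (k : ℝ) / R = k / R + e * (k / R) + e * k / R := by
          field_simp; ring
        have h7 : 1 + e * k / (4 * R) ≤ e * k / R := by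
          have h8 : e * k / (4 * R) = (e * k / R) / 4 := by field_simp
          have h9 : 8 ≤ e * k / R := by
            rw [le_div_iff₀ hR0]
            exact hkR
          linarith
        linarith
      exact_mod_cast h4
    · intro v hv
      have h1 := hsum J v
      have h2 : (v : ℝ) ≤ k + R := by
        have h3 : v ≤ k + R := by omega
        exact_mod_cast h3
      have h4 : ((v + (∑ l ∈ range J, rho r (l + 1) * (v / m l)) + rho r J : ℕ) : ℝ) ≤ N := by
        rw [Nat.cast_add, Nat.cast_add]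
        have h5 : e * (v : ℝ) ≤ e * (k + R) := mul_le_mul_of_nonneg_left h2 he0.le
        have h6 : e * R ≤ 1 / 2 * R := mul_le_mul_of_nonneg_right he1 hR0.le
        linarith
      exact_mod_cast h4
    · intro f h1 h2 h3
      exact hV ⟨f, h1, h2, h3⟩
  -- transfer
  have hbad : ((univ.filter fun V : Fin n → Fin N => ¬ StripUniv k n N V).card : ℝ) ≤
      η * (N : ℝ) ^ n := by
    calc ((univ.filter fun V : Fin n → Fin N => ¬ StripUniv k n N V).card : ℝ) ≤
        ((univ.filter fun V : Fin n → Fin N => ∃ f : ℕ × (Fin R → ℕ), f.1 + rho r J ≤ B ∧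
      (∀ l, f.2 l + rho r J ≤ N) ∧ Bad r m W V J f).card : ℝ) := by
          apply Nat.cast_le.mpr
          apply Finset.card_le_card
          intro V hV
          rw [Finset.mem_filter] at hV ⊢
          refine ⟨Finset.mem_univ _, ?_⟩
          by_contra hc
          exact hV.2 (hgood V hc)
      _ ≤ (B * N ^ R : ℕ) * ((N : ℝ) ^ n * p J) := hub
      _ ≤ (2 * (k : ℝ)) ^ (R + 1) * ((N : ℝ) ^ n * p J) := by
          apply mul_le_mul_of_nonneg_right _ (by have := hp J; positivity)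
          push_cast
          rw [pow_succ, mul_comm]
          apply mul_le_mul _ hB2 (by positivity) (by positivity)
          exact pow_le_pow_left₀ (by positivity) hN2 R
      _ = (p J * (2 * (k : ℝ)) ^ (R + 1)) * (N : ℝ) ^ n := by ring
      _ ≤ η * (N : ℝ) ^ n := mul_le_mul_of_nonneg_right hJ2 (by positivity)
  have htr := transfer k n N hN0 η hbad
  have hcard : ((univ.filter fun π : Equiv.Perm (Fin n) => Universal k n π).card : ℝ) +
      ((univ.filter fun π : Equiv.Perm (Fin n) => ¬ Universal k n π).card : ℝ) =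
      (Nat.factorial n : ℝ) := by
    have h1 := Finset.card_filter_add_card_filter_not (s := (univ : Finset (Equiv.Perm (Fin n))))
      (fun π => Universal k n π)
    rw [Finset.card_univ, Fintype.card_perm, Fintype.card_fin] at h1
    exact_mod_cast h1
  have hfac : (0 : ℝ) ≤ (Nat.factorial n : ℝ) := Nat.cast_nonneg _
  have h3 : 2 * η * (Nat.factorial n : ℝ) ≤ δ * (Nat.factorial n : ℝ) :=
    mul_le_mul_of_nonneg_right (by linarith) hfac
  linarith

end Pool.H15.Univ
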